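import Pool.Agent.Helper1.ES.Final2

/-!
# The exceptional set of `a / b = 1 / x + 1 / y + 1 / z`, uniformly in `a`

For all large `N` and all `a ≥ 1` the number of `b ≤ N` such that `a / b` is not a sum of three
unit fractions is at most `3 N exp (-((log N)^3 / a)^(1/4) / (log log N)^C)`.
-/

namespace Pool.Agent.Results.MP_1d212a_nt.ExceptionalSet

/-- There are `C` and `N₀` such that for all `N ≥ N₀` and all `a ≥ 1` the number of `b ≤ N` for
which `a / b` is not a sum of three unit fractions is at most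
`3 N exp (-((log N)^3 / a)^(1/4) / (log log N)^C)`. -/
theorem result : ∃ C N₀ : ℕ, ∀ N : ℕ, N₀ ≤ N → ∀ a : ℕ, 1 ≤ a →
    (({b : ℕ | 1 ≤ b ∧ b ≤ N ∧ ¬ ∃ x y z : ℕ, 0 < x ∧ 0 < y ∧ 0 < z ∧
      (a : ℚ) / b = 1 / x + 1 / y + 1 / z}.ncard : ℕ) : ℝ) ≤
      3 * N * Real.exp (-(((Real.log N) ^ 3 / a) ^ (1 / 4 : ℝ) /
        (Real.log (Real.log N)) ^ C)) :=
  Pool.Agent.Helper1.ES.main2

end Pool.Agent.Results.MP_1d212a_nt.ExceptionalSet
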