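import Pool.Agent.Helper66.MF.Omega

/-!
# Exceptions of the Schinzel–Sierpiński conjecture have few prime factors

For every `a` there is `C` such that, if `a / b` is not a sum of three unit fractions, then `b` has
fewer than `C (log y) ^ 2` prime factors up to `y` for every `y ≥ 2` (with multiplicities truncated
at `log y`), and fewer than `C (log b) ^ (2 / 3)` distinct prime factors.
-/

namespace Pool.Agent.Results.MP_1d212a_nt.ManyPrimeFactors

open Finset

/-- For every positive integer `a` there is `C > 0` such that every `b ≥ 2` for which `a / b` is not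
a sum of three unit fractions has few prime factors: the sum over the primes `p ≤ y` of
`min (v_p(b)) (log y)` is less than `C (log y) ^ 2` for all real `y ≥ 2`, and the number of distinct
prime factors of `b` is less than `C (log b) ^ (2 / 3)`. -/
theorem result (a : ℕ) (ha : 0 < a) : ∃ C : ℝ, 0 < C ∧ ∀ b : ℕ, 2 ≤ b →
    (¬ ∃ x y z : ℕ, 0 < x ∧ 0 < y ∧ 0 < z ∧ (a : ℚ) / b = 1 / x + 1 / y + 1 / z) →
    (∀ y : ℝ, 2 ≤ y →
      ∑ p ∈ Icc 1 ⌊y⌋₊ with p.Prime, min (b.factorization p : ℝ) (Real.log y) <
        C * Real.log y ^ 2) ∧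
    (#b.primeFactors : ℝ) < C * Real.log b ^ (2 / 3 : ℝ) := by
  obtain ⟨C1, hC1, h1⟩ := Helper66.MF.local_count a ha
  obtain ⟨C2, hC2, h2⟩ := Helper66.MF.omega_count a ha
  refine ⟨max C1 C2, lt_max_of_lt_left hC1, fun b hb hR => ⟨fun y hy => ?_, ?_⟩⟩
  · by_contra h
    refine hR (h1 b (by omega) y hy (le_trans ?_ (not_lt.mp h)))
    exact mul_le_mul_of_nonneg_right (le_max_left _ _) (by positivity)
  · by_contra h
    refine hR (h2 b hb (le_trans ?_ (not_lt.mp h)))
    have : (0 : ℝ) ≤ Real.log b := Real.log_nonneg (by exact_mod_cast (by omega : 1 ≤ b))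
    exact mul_le_mul_of_nonneg_right (le_max_right _ _) (by positivity)

end Pool.Agent.Results.MP_1d212a_nt.ManyPrimeFactors
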