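import Pool.Agent.Helper37.PV.Fin

/-!
# Values of polynomials and the Schinzel–Sierpiński conjecture

For every positive integer `a`, every nonconstant polynomial `f` with rational coefficients and
positive leading coefficient and every `A`, all but at most `N / (log N) ^ A` of the integers `n` of
an interval of length `N` are such that `a / f(n)` is a sum of three unit fractions.
-/

namespace Pool.Agent.Results.MP_1d212a_nt.PolynomialValues

open Classical in
/-- For every positive integer `a`, every nonconstant polynomial `f` with rational coefficients and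
positive leading coefficient and every `A` there is `N₀` such that for all `N ≥ N₀` and all `M` at
most `N / (log N) ^ A` of the natural numbers `n` with `M ≤ n < M + N` are exceptional, that is,
`a / f(n)` is not a sum of three unit fractions. -/
theorem result (a : ℕ) (ha : 0 < a) (f : Polynomial ℚ) (hd : 0 < f.natDegree)
    (hlc : 0 < f.leadingCoeff) (A : ℕ) :
    ∃ N₀ : ℕ, ∀ N : ℕ, N₀ ≤ N → ∀ M : ℕ, (((Finset.Ico M (M + N)).filter fun n : ℕ =>
      ¬ ∃ x y z : ℕ, 0 < x ∧ 0 < y ∧ 0 < z ∧
        (a : ℚ) / f.eval (n : ℚ) = 1 / (x : ℚ) + 1 / (y : ℚ) + 1 / (z : ℚ)).card : ℝ) ≤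
      N / Real.log N ^ A :=
  Helper37.PV.main_rat a ha f hd hlc A

end Pool.Agent.Results.MP_1d212a_nt.PolynomialValues
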