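import Pool.Agent.Helper33.SS.Main

/-!
# MP_1d212a_nt: the prime factors of the denominators without three-term representation

For fixed `a` call `b` exceptional if `a / b` is not a sum of three unit fractions.

* The set of exceptional `b` is finite if and only if it contains only finitely many primes.
* For every `k` and every finite set `S` of primes there are `Q` (divisible by the primes in `S`), a
  subgroup `R` of index at least `k` of the group of units modulo `Q` and a constant `C` such that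
  every exceptional `b` has at most `C` prime factors, counted with multiplicity, whose class
  modulo `Q` does not belong to `R`.
-/

set_option autoImplicit false

namespace Pool.Agent.Results.MP_1d212a_nt.PrimeFactorStructure

open Pool.Agent.Helper33.SS

theorem structure_list (a : ℕ) (ha : 0 < a) (k : ℕ) (S : Finset ℕ) (hS : ∀ p ∈ S, p.Prime) :
    ∃ (Q : ℕ) (_ : NeZero Q) (R : Subgroup (ZMod Q)ˣ) (C : ℕ), k ≤ R.index ∧ (∀ p ∈ S, p ∣ Q) ∧
      ∀ b : ℕ, 0 < b → ¬ Rep a b → ∀ L : List ℕ, L.Sublist b.primeFactorsList →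
        (∀ p ∈ L, ∀ u ∈ R, (u : ZMod Q) ≠ (p : ZMod Q)) → L.length ≤ C := by
  obtain ⟨Q, hQ, R, C, hk, hSQ, h⟩ := main a ha k S hS
  refine ⟨Q, hQ, R, C, hk, hSQ, fun b hb hno L hL hLR => ?_⟩
  by_contra hlt
  push Not at hlt
  apply hno
  apply h L hlt (fun p hp => ⟨Nat.prime_of_mem_primeFactorsList (hL.subset hp), hLR p hp⟩) b hb
  have := hL.prod_dvd_prod
  rwa [Nat.prod_primeFactorsList hb.ne'] at this

theorem finite_iff (a : ℕ) (ha : 0 < a) :
    (∃ B : ℕ, ∀ b, B < b → Rep a b) ↔ (∃ B : ℕ, ∀ p, p.Prime → B < p → Rep a p) := by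
  constructor
  · rintro ⟨B, hB⟩
    exact ⟨B, fun p _ hp => hB p hp⟩
  · rintro ⟨P, hP⟩
    obtain ⟨Q, hQ, R, C, -, hSQ, h⟩ := structure_list a ha 0 ((Finset.range (P + 1)).filter Nat.Prime)
      (fun p hp => (Finset.mem_filter.1 hp).2)
    refine ⟨(P + 1) ^ C, fun b hb => ?_⟩
    by_contra hno
    have hb0 : 0 < b := by omega
    have hsmall : ∀ p ∈ b.primeFactorsList, p ≤ P := by
      intro p hp
      by_contra hlt
      push Not at hlt
      apply hno
      obtain ⟨m, hm⟩ := Nat.dvd_of_mem_primeFactorsList hp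
      have hm0 : 0 < m := Nat.pos_of_ne_zero fun h0 => by subst h0; simp at hm; omega
      rw [hm]
      exact rep_mul hm0 (hP p (Nat.prime_of_mem_primeFactorsList hp) hlt)
    have hlen := h b hb0 hno _ (List.Sublist.refl _) (by
      intro p hp u _ hup
      have hpp := Nat.prime_of_mem_primeFactorsList hp
      have hpQ : p ∣ Q := hSQ p (Finset.mem_filter.2
        ⟨Finset.mem_range.2 (Nat.lt_succ_of_le (hsmall p hp)), hpp⟩)
      have hunit : IsUnit ((p : ℕ) : ZMod Q) := by rw [← hup]; exact u.isUnit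
      have hco := (ZMod.isUnit_iff_coprime p Q).1 hunit
      have : p ∣ 1 := by
        have h1 := Nat.dvd_gcd (dvd_refl p) hpQ
        rwa [Nat.Coprime.gcd_eq_one hco] at h1
      exact hpp.one_lt.ne' (Nat.dvd_one.1 this))
    have hprod : b ≤ (P + 1) ^ b.primeFactorsList.length := by
      have h1 := List.prod_le_pow_card b.primeFactorsList (P + 1)
        (fun p hp => (hsmall p hp).trans (Nat.le_succ P))
      rwa [Nat.prod_primeFactorsList hb0.ne'] at h1
    have h2 : (P + 1) ^ b.primeFactorsList.length ≤ (P + 1) ^ C :=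
      Nat.pow_le_pow_right (Nat.succ_pos P) hlen
    omega

open Classical in
theorem result (a : ℕ) (ha : 0 < a) :
    -- all but finitely many `b` are representable if and only if all but finitely many primes are
    ((∃ B : ℕ, ∀ b : ℕ, B < b →
        ∃ x y z : ℕ, 0 < x ∧ 0 < y ∧ 0 < z ∧ (a : ℚ) / b = 1 / x + 1 / y + 1 / z) ↔
      ∃ B : ℕ, ∀ p : ℕ, p.Prime → B < p →
        ∃ x y z : ℕ, 0 < x ∧ 0 < y ∧ 0 < z ∧ (a : ℚ) / p = 1 / x + 1 / y + 1 / z) ∧
    -- the prime factors `p` of `b * c`, for an exceptional `b`, such that `- 1` is a power of `p`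
    (∀ q c b : ℕ, 0 < q → a * c = q + 1 → 0 < b →
      (¬ ∃ x y z : ℕ, 0 < x ∧ 0 < y ∧ 0 < z ∧ (a : ℚ) / b = 1 / x + 1 / y + 1 / z) →
        2 * (((b * c).primeFactorsList.filter fun p : ℕ => ∃ s : ℕ, q ∣ p ^ s + 1).length + 1) ≤
          Nat.totient q) ∧
    -- the prime factors of an exceptional `b` outside a subgroup of large index
    ∀ (k : ℕ) (S : Finset ℕ), (∀ p ∈ S, p.Prime) →
      ∃ (Q : ℕ) (R : Subgroup (ZMod Q)ˣ) (C : ℕ), Q ≠ 0 ∧ k ≤ R.index ∧ (∀ p ∈ S, p ∣ Q) ∧
        ∀ b : ℕ, 0 < b →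
          (¬ ∃ x y z : ℕ, 0 < x ∧ 0 < y ∧ 0 < z ∧ (a : ℚ) / b = 1 / x + 1 / y + 1 / z) →
            (b.primeFactorsList.filter fun p : ℕ => ¬ ∃ u ∈ R, (u : ZMod Q) = (p : ZMod Q)).length
              ≤ C := by
  refine ⟨finite_iff a ha, fun q c b hq hc hb hno => ?_, fun k S hS => ?_⟩
  · have hc0 : 0 < c := Nat.pos_of_ne_zero fun h => by subst h; simp at hc
    refine count_list hq hc hb hno _ ?_ ?_
    · have h1 := (List.filter_sublist (l := (b * c).primeFactorsList)
        (p := fun p : ℕ => decide (∃ s : ℕ, q ∣ p ^ s + 1))).prod_dvd_prod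
      rwa [Nat.prod_primeFactorsList (Nat.mul_pos hb hc0).ne'] at h1
    · intro p hp
      simpa using (List.mem_filter.1 hp).2
  · have key : ∃ (Q : ℕ) (R : Subgroup (ZMod Q)ˣ) (C : ℕ), Q ≠ 0 ∧ k ≤ R.index ∧
        (∀ p ∈ S, p ∣ Q) ∧ ∀ b : ℕ, 0 < b → ¬ Rep a b → ∀ L : List ℕ,
          L.Sublist b.primeFactorsList → (∀ p ∈ L, ∀ u ∈ R, (u : ZMod Q) ≠ (p : ZMod Q)) →
            L.length ≤ C := by
      obtain ⟨Q, hQ, R, C, hk, hSQ, h⟩ := structure_list a ha k S hS
      exact ⟨Q, R, C, NeZero.ne Q, hk, hSQ, h⟩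
    obtain ⟨Q, R, C, hQ, hk, hSQ, h⟩ := key
    refine ⟨Q, R, C, hQ, hk, hSQ, fun b hb hno => h b hb hno _ List.filter_sublist ?_⟩
    intro p hp u hu hup
    exact of_decide_eq_true (List.mem_filter.1 hp).2 ⟨u, hu, hup⟩

end Pool.Agent.Results.MP_1d212a_nt.PrimeFactorStructure
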